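import Pool.Agent.CompSlopes.Planar

/-!
# MP_fc0e0d_gt: correction terms of reducible surgeries and cables

The first part is a theorem on sequences of integers. The second part is its consequence for essential
planar surfaces in knot exteriors.
-/

set_option autoImplicit false

namespace Pool.Agent.Results.MP_fc0e0d_gt.CableSequences

open Pool.Agent.Helper23.FT Pool.Agent.CompSlopes

/-- The correction terms of the `a b`-surgery split as those of a connected sum of manifolds with
homology of the coprime orders `a, b ≥ 2` if and only if the invariants `V_i`, `i ≤ a b / 2`, are those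
of an `(a, b)`-cable. Hence, if the exterior of a knot contains a non-meridional essential planar
surface which is no disc, the surgery is a connected sum of a lens space with homology of order `a` and
a manifold with homology of order `b`, and if `b ≥ 2` then the `V_i` of the knot are
those of a cable and the slope is at most `4 g4 + 2`. -/
theorem result :
    (∀ V : ℕ → ℕ, IsV V → ∀ a b : ℕ, 2 ≤ a → a < b → a.Coprime b →
      ((∃ F G : ℕ → ℚ, ∀ i < a * b, dSurg V (a * b) i = F (i % a) + G (i % b)) ↔
        ∃ V' : ℕ → ℕ, IsV V' ∧ IsCable a b V V')) ∧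
    ∀ (T : FloerTheory) (K : T.Knot) (P : T.Surface K), 2 ≤ T.comps P →
      ∃ (r : ℤ) (a b : ℕ) (L A : T.Man), T.slope P = r ∧ T.surg K r = T.sum L A ∧ T.lens a L ∧
        Nat.card (T.H A) = b ∧ |r| = a * b ∧ 2 ≤ a ∧ 1 ≤ b ∧ a.Coprime b ∧
        (2 ≤ b → |r| ≤ 4 * T.g4 K + 2 ∧
          ∃ V' : ℕ → ℕ, IsV V' ∧ IsCable (min a b) (max a b) (T.data (T.side K r)).V V') :=
  ⟨fun _ hV _ _ ha hab hc => splits_iff_isCable hV ha hab hc, fun _ _ P hP => planar P hP⟩

end Pool.Agent.Results.MP_fc0e0d_gt.CableSequences
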