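import Pool.Agent.Helper87.SC.Torus

/-!
# MP_fc0e0d_gt: Scharlemann cycles of a graph with one vertex

A planar surface `P` with `p` boundary components and slope `r` in the exterior of a knot meets a
Seifert surface of genus `g` in a graph with one vertex. This theorem bounds the number of its
Scharlemann cycles from below and their lengths from above.
-/

set_option autoImplicit false

namespace Pool.Agent.Kept.MP_fc0e0d_gt.ScharlemannCycles

open Pool.Agent.Helper87.SC

/-- There are at least `r + 1 - 2 g` Scharlemann cycles, the sum of their lengths minus `2` is at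
most `4 g - 2`, and `r ≤ 2 g + 1` if all have the length `r`. Both bounds are attained for all
torus knots. -/
theorem result :
    (∀ (p r g : ℕ) (G : OneVertexGraph p r g), 0 < r → 2 ≤ p → 2 ∣ p → G.Parity → G.NoMonogon →
      r + 1 ≤ G.scharlemann.card + 2 * g ∧
      ∑ f ∈ G.scharlemann, G.length f + 2 ≤ 2 * G.scharlemann.card + 4 * g ∧
      ((∀ f, G.IsScharlemann f → G.length f = r) → r ≤ 2 * g + 1)) ∧
    ∀ a b g : ℕ, 2 ≤ a → 2 ≤ b → Nat.Coprime a b → 2 * g = (a - 1) * (b - 1) →
      ∃ G : OneVertexGraph 2 (a * b) g, G.Parity ∧ G.NoMonogon ∧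
        a * b + 1 = G.scharlemann.card + 2 * g ∧
        ∑ f ∈ G.scharlemann, G.length f + 2 = 2 * G.scharlemann.card + 4 * g := by
  refine ⟨fun p r g G hr hp h2 hpar hmon => ?_, fun a b g ha hb hab hg =>
    Torus.exists_graph ha hb hab hg⟩
  have : NeZero (r * p) := ⟨Nat.mul_ne_zero (by omega) (by omega)⟩
  exact ⟨G.le_card_scharlemann hp h2 hpar hmon, G.sum_length_le hpar hmon,
    G.le_of_forall_length hp h2 hpar hmon⟩

end Pool.Agent.Kept.MP_fc0e0d_gt.ScharlemannCycles
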