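import Pool.Agent.WTT.SeifMain
import Pool.Agent.WTT.CardCover

/-!
Planar surfaces against Seifert surfaces without long product discs.
-/

namespace Pool.Agent.Results.MP_fc0e0d_gt.SeifertSurfaces

open Pool.Agent.WTT

universe u v w

theorem result {G : Type u} {V : Type v} [Group G] [MulAction G V] (T : SimpleGraph V)
    (L : ℤ → V) (c t : G) (q : ℕ) (hK : SurfaceTree T L c t q)
    (f : ℕ) (hf : 1 ≤ f) (hr : RigidLine L (Subgroup.closure {c, t}) f)
    (a e : ℤ) (m : ℕ) (hm : 2 ≤ m) (ρ : FreeGroup (Fin m) →* G)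
    (hρ : PlanarMap (t ^ a * c ^ e) m ρ) :
    a.natAbs * q ≤ (6 * m - 6) / (m + 1) * f ∧
    (Coherent G L → a.natAbs * q ≤ (4 * m - 4) / (m + 1) * f) ∧
    -- homology of the cyclic covers
    (c ∈ derivedSeries G 2 → orderOf (Abelianization.of t) = 0 →
      (∀ x : Abelianization G, x ∈ Subgroup.zpowers (Abelianization.of t)) →
      ∀ (k : ℕ) (B' : Type w) [Group B'], 2 ≤ k →
      Nonempty (G ⧸ Subgroup.normalClosure {t ^ a * c ^ e} ≃*
        Monoid.Coprod (Multiplicative (ZMod k)) B') →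
      ∃ b : ℕ, 1 ≤ b ∧ a.natAbs = k * b ∧ ∀ p : ℕ, p.Prime → p ∣ k →
        ∀ N : Subgroup G, N.Normal → N.index = p → ∀ h : t ^ p ∈ N,
          Nat.card (Abelianization N ⧸
            Subgroup.zpowers (Abelianization.of (⟨t ^ p, h⟩ : N))) = b ^ (p - 1)) := by
  have hs : t ^ a * c ^ e = c ^ e * t ^ a := (hK.comm.symm.zpow_zpow a e).eq
  refine ⟨?_, fun hc => ?_, ?_⟩
  · by_cases ha : a = 0
    · simp [ha]
    · rw [hs] at hρ
      exact window_six hK hf hr e a ha m hm ρ hρ
  · by_cases ha : a = 0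
    · simp [ha]
    · rw [hs] at hρ
      exact window_four hK hc hf hr e a ha m hm ρ hρ
  · rintro hc2 hinf hgen k B' _ hk ⟨iso⟩
    have hcN : ∀ N : Subgroup G, commutator G ≤ N → ∀ h : c ∈ N, (⟨c, h⟩ : N) ∈ commutator N := by
      intro N hN h
      have h1 : derivedSeries G 2 ≤ ⁅N, N⁆ := by
        rw [derivedSeries_succ, derivedSeries_one]
        exact Subgroup.commutator_mono hN hN
      have h2 : (commutator N).map N.subtype = ⁅N, N⁆ := by
        rw [commutator_def, Subgroup.map_commutator, ← MonoidHom.range_eq_map,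
          Subgroup.range_subtype]
      have h3 := h1 hc2
      rw [← h2] at h3
      obtain ⟨x, hx, hxc⟩ := h3
      have : x = ⟨c, h⟩ := Subtype.ext hxc
      rwa [this] at hx
    have hcG : c ∈ commutator G := by
      have := derivedSeries_antitone G (by norm_num : 1 ≤ 2) hc2
      rwa [derivedSeries_one] at this
    by_cases ha : a = 0
    · exact (no_cyclic_summand_zero hgen hinf hcG ha hk iso).elim
    · exact card_cover hK.comm.symm hgen hinf hcN ha hk iso

end Pool.Agent.Results.MP_fc0e0d_gt.SeifertSurfaces
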