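import Pool.Agent.Helper23.FT.AlexTheory

/-!
# MP_fc0e0d_gt: slice knots and other knots with vanishing invariant V_0

The first part is a theorem on the numerical invariants of a knot which come from its knot Floer
complex and its Alexander polynomial. The second part is its consequence for essential planar
surfaces.
-/

set_option autoImplicit false

namespace Pool.Agent.Results.MP_fc0e0d_gt.VanishingV0

open Pool.Agent.Helper23.FT

/-- If `V_0` vanishes for the knot and its mirror image, as for slice knots, and the exterior contains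
an essential planar surface with the integral slope `r` which is no disc, then `2 ≤ |r| ≤ 2 th + 1`,
the genus is at most `2 th + 2` and the Alexander polynomial is congruent to `1`
modulo `(T - 1) (T ^ |r| - 1)`. -/
theorem result :
    (∀ (D : AlexData) (a b : ℕ), D.Splits a b → D.V 0 = 0 →
      b = 1 ∧ (LaurentPolynomial.T 1 - 1) * (LaurentPolynomial.T a - 1) ∣ D.polynomial - 1 ∧
      (D.dmin ≤ 0 → 0 < D.genus → (a : ℤ) ≤ 2 * D.th + 1 ∧ (D.genus : ℤ) ≤ 2 * D.th + 2)) ∧
    ∀ (T : AlexTheory) (K : T.Knot) (P : T.Surface K), 2 ≤ T.comps P →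
      (T.data K).V 0 = 0 → (T.data (T.mirror K)).V 0 = 0 →
      ∃ r : ℤ, T.slope P = r ∧ 2 ≤ |r| ∧ |r| ≤ 2 * T.th K + 1 ∧
        (T.genus K : ℤ) ≤ 2 * T.th K + 2 ∧
        (LaurentPolynomial.T 1 - 1) * (LaurentPolynomial.T |r| - 1) ∣ T.alexander K - 1 :=
  ⟨fun _ _ _ h hV => ⟨h.eq_one hV, AlexData.dvd_polynomial_sub_one h hV, h.bounds_zero hV⟩,
    fun _ _ P hP h1 h2 => AlexTheory.of_V_eq_zero P hP h1 h2⟩

end Pool.Agent.Results.MP_fc0e0d_gt.VanishingV0
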